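import Pool.Agent.H84.BA.Core

/-!
The bit pigeonhole principle with growing degree: `s = 24 k`, `α = 12 k`, `q = 2 ^ (-K)` (helper81; adapted from
H84/BA/Num, helper84).
-/

set_option autoImplicit false
open scoped Classical

namespace H81B4

open H81BX H84BA H96RE H91RE

theorem core4 {k K e d l m f t N : ℕ} (hk : 3 ≤ k) (hK : 3 ≤ K) (he : e ≤ 2 ^ k)
    (hl : l = 50 * k + K * e + K + 8 + d)
    (hm : m ≤ 2 ^ (K * k)) (hf : f + 1 ≤ 2 ^ k) (ht : t ≤ 2 ^ (K * e + 1 + d))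
    (hex : ∀ c : Fin m → Fin (24 * k) → Fin l → ZMod 2, ∃ A : ℕ → Set (Fin (m * (24 * k)) → ZMod 2),
      (∀ i < N, ∃ (P : Set ((Fin (m * (24 * k)) → ZMod 2) → ZMod 2)) (h : (Fin (m * (24 * k)) → ZMod 2) → ZMod 2),
        (∀ p ∈ P, p ∈ Pol (m * (24 * k)) e) ∧ h ∈ Pol (m * (24 * k)) t ∧ A i = {x | (∀ p ∈ P, p x = 0) ∧ h x = 0}) ∧
      (∀ i < N, (∃ a b, a ≠ b ∧ ∀ x ∈ A i, pos c a (zz x a) = pos c b (zz x b)) ∨
        ∃ Q : Finset ℕ, Q.card ≤ f ∧ (∀ j ∈ Q, j < i) ∧ ∀ x ∈ A i, ∃ j ∈ Q, x ∈ A j) ∧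
      ∃ i < N, A i = Set.univ) :
    Real.exp ((2 : ℝ) ^ d) ≤ 2 * ((m * (24 * k) : ℕ) + 1) * N := by
  have hKk : 9 ≤ K * k := by nlinarith
  obtain ⟨c, hc⟩ := exists_maps' (m := m) (s := 24 * k) (l := l) (α := 12 * k) (r := k)
    (B := 2 ^ (2 * k + K * e + 6 + d)) (by omega) (by omega) (by
      have h1 : 2 ^ (2 * (24 * k)) * 2 ^ (2 * k + K * e + 6 + d) = 2 ^ (50 * k + K * e + 6 + d) := by
        rw [← pow_add]
        congr 1
        ring
      rw [h1]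
      have h2 : (2 ^ l) ^ k = 2 ^ ((K + 2) * k) * (2 ^ (50 * k + K * e + 6 + d)) ^ k := by
        rw [← pow_mul, ← pow_mul, ← pow_add, hl]
        congr 1
        ring
      rw [h2, ← mul_assoc]
      refine Nat.mul_le_mul_right _ ?_
      calc 48 * m ≤ 2 ^ 6 * 2 ^ (K * k) := Nat.mul_le_mul (by norm_num) hm
        _ = 2 ^ (6 + K * k) := (pow_add _ _ _).symm
        _ ≤ 2 ^ ((K + 2) * k) := Nat.pow_le_pow_right (by norm_num) (by nlinarith))
  obtain ⟨A, hA, hline, hlast⟩ := hex c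
  have h1 := core1' (w := 2 ^ (K * e + 1 + d)) (E := 2 ^ (2 * k + K * e + 3 + d)) (q := (1 / 2 : ℝ) ^ K) c hc
    (by
      have h2 : 8 * 2 ^ (2 * k + K * e + 3 + d) = 2 ^ (2 * k + K * e + 6 + d) := by
        rw [show (8 : ℕ) = 2 ^ 3 by norm_num, ← pow_add]
        congr 1
        ring
      exact h2.le)
    (by positivity)
    (pow_lt_one₀ (by norm_num) (by norm_num) (by omega))
    (by
      have h2 : e * 2 ^ (K * e + 1 + d) + t ≤ 2 ^ (k + K * e + 2 + d) := by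
        have h3 : e * 2 ^ (K * e + 1 + d) ≤ 2 ^ (k + K * e + 1 + d) := by
          calc e * 2 ^ (K * e + 1 + d) ≤ 2 ^ k * 2 ^ (K * e + 1 + d) := Nat.mul_le_mul_right _ he
            _ = 2 ^ (k + K * e + 1 + d) := by
              rw [← pow_add]
              congr 1
              ring
        have h4 : t ≤ 2 ^ (k + K * e + 1 + d) := ht.trans (Nat.pow_le_pow_right (by norm_num) (by omega))
        have h5 : 2 ^ (k + K * e + 2 + d) = 2 * 2 ^ (k + K * e + 1 + d) := by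
          rw [← pow_succ']
          congr 1
          ring
        omega
      have h3 : (f + 1) * (e * 2 ^ (K * e + 1 + d) + t) ≤ 2 ^ (2 * k + K * e + 2 + d) := by
        calc (f + 1) * (e * 2 ^ (K * e + 1 + d) + t) ≤ 2 ^ k * 2 ^ (k + K * e + 2 + d) := Nat.mul_le_mul hf h2
          _ = 2 ^ (2 * k + K * e + 2 + d) := by
              rw [← pow_add]
              congr 1
              ring
      have h4 : 2 ^ (2 * k + K * e + 3 + d) = 2 * 2 ^ (2 * k + K * e + 2 + d) := by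
        rw [← pow_succ']
        congr 1
        ring
      have h5 : 4 ≤ 2 ^ (2 * k + K * e + 2 + d) := by
        calc 4 = 2 ^ 2 := by norm_num
          _ ≤ 2 ^ (2 * k + K * e + 2 + d) := Nat.pow_le_pow_right (by norm_num) (by omega)
      omega)
    (by
      have h2 : (m : ℝ) ≤ 2 ^ (K * k) := by exact_mod_cast hm
      have h3 : ((1 / 2 : ℝ) ^ K) ^ (12 * k + 1) = 1 / 2 ^ (K * (12 * k + 1)) := by
        rw [← pow_mul, one_div, inv_pow, one_div]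
      rw [h3, mul_one_div, mul_div_assoc', div_le_div_iff₀ (by positivity) (by norm_num)]
      calc (m : ℝ) * 2 ^ (24 * k) * 2 ≤ 2 ^ (K * k) * 2 ^ (24 * k) * 2 := by gcongr
        _ = 2 ^ (K * k + 24 * k + 1) := by
          rw [pow_add, pow_add, pow_one]
        _ ≤ 2 ^ (K * (12 * k + 1)) := by
          refine pow_le_pow_right₀ (by norm_num) ?_
          nlinarith
        _ = 1 * 2 ^ (K * (12 * k + 1)) := by ring)
    A hA hline hlast
  have h2 : ((1 / 2 : ℝ) ^ K) ^ e * ((2 ^ (K * e + 1 + d) : ℕ) : ℝ) / 2 = 2 ^ d := by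
    rw [← pow_mul, one_div, inv_pow]
    push_cast
    have h3 : (2 : ℝ) ^ (K * e + 1 + d) = 2 ^ (K * e) * 2 * 2 ^ d := by
      rw [pow_add, pow_add, pow_one]
    rw [h3]
    field_simp
  rw [h2] at h1
  exact h1

private theorem rp_mul (a b : ℝ) : (2 : ℝ) ^ a * (2 : ℝ) ^ b = (2 : ℝ) ^ (a + b) :=
  (Real.rpow_add (by norm_num) a b).symm

private theorem rp_le {a b : ℝ} (h : a ≤ b) : (2 : ℝ) ^ a ≤ (2 : ℝ) ^ b :=
  Real.rpow_le_rpow_of_exponent_le (by norm_num) h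

private theorem half_le (y : ℝ) (hy : 0 ≤ y) : y ≤ 2 * (2 : ℝ) ^ y := by
  have h1 : (2 : ℝ) ^ y = Real.exp (y * Real.log 2) := by
    rw [Real.rpow_def_of_pos (by norm_num), mul_comm]
  have h2 := Real.add_one_le_exp (y * Real.log 2)
  have h3 := Real.log_two_gt_d9
  rw [h1]
  nlinarith

private theorem poly_le {L : ℝ} (hL : 100 ≤ L) : 2 * L ^ 2 + L + 6 ≤ 2 ^ (3 * L / 4 - 7) := by
  have h1 := half_le (L / 8) (by linarith)
  have h2 : L ≤ 16 * (2 : ℝ) ^ (L / 8) := by linarith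
  have h3 : ((2 : ℝ) ^ (L / 8)) ^ 2 = 2 ^ (L / 4) := by
    rw [pow_two, rp_mul]
    congr 1
    ring
  have h4 : L ^ 2 ≤ 256 * (2 : ℝ) ^ (L / 4) := by
    calc L ^ 2 ≤ (16 * (2 : ℝ) ^ (L / 8)) ^ 2 := pow_le_pow_left₀ (by linarith) h2 2
      _ = 256 * (2 : ℝ) ^ (L / 4) := by rw [mul_pow, h3]; norm_num
  have h5 : (2 : ℝ) ^ (12 : ℝ) = 4096 := by
    have : (12 : ℝ) = ((12 : ℕ) : ℝ) := by norm_num
    rw [this, Real.rpow_natCast]
    norm_num
  calc 2 * L ^ 2 + L + 6 ≤ 9 * L ^ 2 := by nlinarith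
    _ ≤ 4096 * (2 : ℝ) ^ (L / 4) := by
      have : (0 : ℝ) ≤ 2 ^ (L / 4) := by positivity
      linarith
    _ = 2 ^ (12 + L / 4) := by rw [← h5, rp_mul]
    _ ≤ 2 ^ (3 * L / 4 - 7) := rp_le (by linarith)

/-- Choice of the parameters. -/
theorem params {η : ℝ} (hη : 0 < η) : ∃ δ : ℝ, 0 < δ ∧ δ ≤ 1 ∧ ∃ l₀ : ℕ, ∀ l ≥ l₀, 100 ≤ (l : ℝ) ∧ ∀ e : ℕ, 1 ≤ e →
    (e : ℝ) ≤ δ * l → ∃ k K d : ℕ, 3 ≤ k ∧ 3 ≤ K ∧ (e : ℝ) ≤ k ∧ l = 50 * k + K * e + K + 8 + d ∧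
      δ * l + 1 ≤ k ∧ (K : ℝ) * k ≤ (l : ℝ) ^ 2 ∧ (k : ℝ) ≤ l ∧ δ * l ^ 2 / e + 1 ≤ K * k ∧
      (1 - η) * l + 7 ≤ d ∧ 3 * (l : ℝ) / 4 ≤ d := by
  obtain ⟨θ, hθ⟩ : ∃ θ : ℝ, θ = min η (1 / 2) := ⟨_, rfl⟩
  have hθ0 : 0 < θ := by
    rw [hθ]
    exact lt_min hη (by norm_num)
  have hθη : θ ≤ η := by rw [hθ]; exact min_le_left _ _
  have hθ2 : θ ≤ 1 / 2 := by rw [hθ]; exact min_le_right _ _
  obtain ⟨κ, hκ⟩ : ∃ κ : ℝ, κ = θ / 400 := ⟨_, rfl⟩
  have hκ0 : 0 < κ := by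
    rw [hκ]
    positivity
  obtain ⟨δ, hδ⟩ : ∃ δ : ℝ, δ = θ * κ / 128 := ⟨_, rfl⟩
  have hδ0 : 0 < δ := by
    rw [hδ]
    positivity
  have hδθ : 128 * δ ≤ κ / 2 := by
    rw [hδ]
    nlinarith
  have hδκ : 400 * 128 * δ ≤ θ := by
    rw [hδ, hκ]
    nlinarith
  refine ⟨δ, hδ0, by linarith, ⌈8 / κ + 100 / θ + 100 / δ⌉₊, fun l hl => ?_⟩
  obtain ⟨L, hL⟩ : ∃ L : ℝ, L = l := ⟨_, rfl⟩
  have hL0 : 8 / κ + 100 / θ + 100 / δ ≤ L := by
    rw [hL]
    exact Nat.ceil_le.1 hl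
  have hd1 : 0 ≤ 8 / κ := by positivity
  have hd2 : 0 ≤ 100 / θ := by positivity
  have hd3 : 0 ≤ 100 / δ := by positivity
  have hκL : 8 ≤ κ * L := by
    have h1 : 8 / κ ≤ L := by linarith
    rw [div_le_iff₀ hκ0] at h1
    linarith
  have hθL : 100 ≤ θ * L := by
    have h1 : 100 / θ ≤ L := by linarith
    rw [div_le_iff₀ hθ0] at h1
    linarith
  have hδL : 100 ≤ δ * L := by
    have h1 : 100 / δ ≤ L := by linarith
    rw [div_le_iff₀ hδ0] at h1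
    linarith
  have hLn : 0 ≤ L := by linarith
  have hθL2 : θ * L ≤ L / 2 := by
    have h1 : θ * L ≤ 1 / 2 * L := mul_le_mul_of_nonneg_right hθ2 hLn
    linarith
  have hL100 : 100 ≤ L := by linarith
  have hδθL : 51200 * (δ * L) ≤ θ * L := by
    have h1 := mul_le_mul_of_nonneg_right hδκ hLn
    linarith
  have hδκL : 128 * (δ * L) ≤ κ * L / 2 := by
    have h1 := mul_le_mul_of_nonneg_right hδθ hLn
    linarith
  rw [← hL]
  refine ⟨hL100, fun e he1 heL => ?_⟩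
  have he1R : (1 : ℝ) ≤ e := by exact_mod_cast he1
  obtain ⟨k, hk⟩ : ∃ k : ℕ, k = ⌊κ * L⌋₊ := ⟨_, rfl⟩
  have hkle : (k : ℝ) ≤ κ * L := by
    rw [hk]
    exact Nat.floor_le (by linarith)
  have hkge : κ * L < k + 1 := by
    rw [hk]
    exact Nat.lt_floor_add_one _
  have hk0 : (0 : ℝ) ≤ k := Nat.cast_nonneg k
  obtain ⟨y, hy⟩ : ∃ y : ℝ, y = θ * L / (8 * (e + 1)) := ⟨_, rfl⟩
  have hy1 : y * (8 * (e + 1)) = θ * L := by
    rw [hy]
    field_simp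
  have hy0 : 0 ≤ y := by
    rw [hy]
    positivity
  have hye : y * (e + 1) = θ * L / 8 := by linarith
  have hy8 : 8 ≤ y := by
    have h1 : 8 * (8 * ((e : ℝ) + 1)) ≤ θ * L := by linarith
    have h2 : 8 * (8 * ((e : ℝ) + 1)) ≤ y * (8 * (e + 1)) := by rw [hy1]; exact h1
    exact le_of_mul_le_mul_right h2 (by positivity)
  obtain ⟨K, hK⟩ : ∃ K : ℕ, K = ⌊y⌋₊ := ⟨_, rfl⟩
  have hKle : (K : ℝ) ≤ y := by
    rw [hK]
    exact Nat.floor_le hy0
  have hKge : y < K + 1 := by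
    rw [hK]
    exact Nat.lt_floor_add_one _
  have hK0 : (0 : ℝ) ≤ K := Nat.cast_nonneg K
  have hKe : (K : ℝ) * (e + 1) ≤ θ * L / 8 := by
    rw [← hye]
    exact mul_le_mul_of_nonneg_right hKle (by positivity)
  have h50 : 50 * (k : ℝ) ≤ θ * L / 8 := by
    have h1 : κ * L = θ * L / 400 := by rw [hκ]; ring
    linarith
  have hlk : 50 * k + K * e + K + 8 ≤ l := by
    have h1 : (50 * k + K * e + K + 8 : ℝ) ≤ l := by
      rw [← hL]
      have h2 : (K : ℝ) * (e + 1) = K * e + K := by ring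
      linarith
    exact_mod_cast h1
  obtain ⟨d, hd⟩ := Nat.exists_eq_add_of_le hlk
  have hdR : (d : ℝ) = L - 50 * k - K * (e + 1) - 8 := by
    rw [hL, hd]
    push_cast
    ring
  have hdge : L - θ * L / 4 - 8 ≤ d := by
    rw [hdR]
    linarith
  have hkL : (k : ℝ) ≤ L := by linarith
  have hKL : (K : ℝ) ≤ L := by
    have h1 : (K : ℝ) * 1 ≤ K * (e + 1) := mul_le_mul_of_nonneg_left (by linarith) hK0
    linarith
  refine ⟨k, K, d, ?_, ?_, ?_, hd, ?_, ?_, ?_, ?_, ?_, ?_⟩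
  · have h1 : (3 : ℝ) ≤ k := by linarith
    exact_mod_cast h1
  · have h1 : (3 : ℝ) ≤ K := by linarith
    exact_mod_cast h1
  · linarith
  · linarith
  · calc (K : ℝ) * k ≤ L * L := mul_le_mul hKL hkL hk0 (by linarith)
      _ = L ^ 2 := by ring
  · exact hkL
  · -- K k is large
    have h1 : y / 2 ≤ K := by linarith
    have h2 : κ * L / 2 ≤ k := by linarith
    have h3 : y / 2 * (κ * L / 2) ≤ K * k := mul_le_mul h1 h2 (by linarith) hK0
    have h4 : y * (2 * e) ≥ θ * L / 8 := by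
      rw [← hye]
      exact mul_le_mul_of_nonneg_left (by linarith) hy0
    have h5 : (δ * L ^ 2 / e + 1) * (2 * e) ≤ y / 2 * (κ * L / 2) * (2 * e) := by
      have h6 : (δ * L ^ 2 / e + 1) * (2 * e) = 2 * (δ * L ^ 2) + 2 * e := by
        field_simp
      have h7 : y / 2 * (κ * L / 2) * (2 * e) = (κ * L / 4) * (y * (2 * e)) := by ring
      have h8 : (κ * L / 4) * (θ * L / 8) ≤ (κ * L / 4) * (y * (2 * e)) :=
        mul_le_mul_of_nonneg_left h4 (by linarith)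
      have h9 : (κ * L / 4) * (θ * L / 8) = 4 * (δ * L ^ 2) := by
        rw [hδ]
        ring
      have h10 : (e : ℝ) ≤ δ * L ^ 2 := by
        have h11 : δ * L * 1 ≤ δ * L * L := mul_le_mul_of_nonneg_left (by linarith) (by linarith)
        have h12 : δ * L * L = δ * L ^ 2 := by ring
        linarith
      rw [h6, h7]
      linarith
    exact (le_of_mul_le_mul_right h5 (by positivity)).trans h3
  · have h1 : (1 - η) * L ≤ (1 - θ) * L := mul_le_mul_of_nonneg_right (by linarith) (by linarith)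
    have h2 : (1 - θ) * L = L - θ * L := by ring
    linarith
  · linarith

/-- The main theorem: the bit pigeonhole principle for every number of pigeons, with growing degree. -/
theorem all_degrees (η : ℝ) (hη : 0 < η) : ∃ δ : ℝ, 0 < δ ∧ ∃ l₀ : ℕ, ∀ l ≥ l₀,
    ∀ e m t f N : ℕ, 1 ≤ e → (e : ℝ) ≤ δ * l → (f : ℝ) ≤ 2 ^ (δ * l) → (t : ℝ) ≤ 2 ^ ((1 - η) * l) →
      BitPigeonhole.Refutes e (BitPigeonhole.DegLE t) f (BitPigeonhole.Different m l) N →
        ((m : ℝ) ^ e ≤ 2 ^ (δ * l ^ 2) → (2 : ℝ) ^ ((2 : ℝ) ^ ((1 - η) * l)) ≤ N) ∧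
          (2 : ℝ) ^ (δ * l ^ 2 / e) ≤ N := by
  obtain ⟨δ, hδ0, hδ1, l₀, hpar⟩ := params hη
  refine ⟨δ, hδ0, l₀, fun l hl e m t f N he1 heL hf ht hR => ?_⟩
  obtain ⟨hL100, hpar'⟩ := hpar l hl
  obtain ⟨k, K, d, hk3, hK3, hek, hd, hδk, hKkL, hkL, hKk, hdη, hd34⟩ := hpar' e he1 heL
  obtain ⟨L, hL⟩ : ∃ L : ℝ, L = l := ⟨_, rfl⟩
  rw [← hL] at hL100 hδk hKkL hkL hKk hdη hd34 hf ht ⊢
  have hk0 : (0 : ℝ) ≤ k := Nat.cast_nonneg k
  have hK0 : (0 : ℝ) ≤ K := Nat.cast_nonneg K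
  have he1R : (1 : ℝ) ≤ e := by exact_mod_cast he1
  -- the parameters
  have hf1 : f + 1 ≤ 2 ^ k := by
    have h1 : ((f : ℝ) + 1) ≤ 2 ^ k := by
      calc (f : ℝ) + 1 ≤ 2 ^ (δ * L) + 2 ^ (δ * L) := by
            have h2 : (1 : ℝ) ≤ 2 ^ (δ * L) := Real.one_le_rpow (by norm_num) (by positivity)
            linarith
        _ = 2 ^ (δ * L + 1) := by
            rw [← rp_mul, Real.rpow_one]
            ring
        _ ≤ 2 ^ (k : ℝ) := rp_le hδk
        _ = 2 ^ k := Real.rpow_natCast _ _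
    exact_mod_cast h1
  have ht1 : t ≤ 2 ^ (K * e + 1 + d) := by
    have h1 : (t : ℝ) ≤ 2 ^ (K * e + 1 + d) := by
      refine ht.trans ?_
      rw [← Real.rpow_natCast 2 (K * e + 1 + d)]
      refine rp_le ?_
      push_cast
      have h2 : (0 : ℝ) ≤ K * e := by positivity
      linarith
    exact_mod_cast h1
  have he2 : e ≤ 2 ^ k := by
    have h1 : e ≤ k := by exact_mod_cast hek
    exact h1.trans Nat.lt_two_pow_self.le
  obtain ⟨m', hm'm, hm'N, hbr⟩ := bridge' hR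
  obtain ⟨Z, hZ⟩ : ∃ Z : ℝ, Z = 2 ^ ((1 - η) * L) + L ^ 2 := ⟨_, rfl⟩
  have hL20 : 0 ≤ L ^ 2 := by positivity
  have hY0 : (0 : ℝ) ≤ 2 ^ ((1 - η) * L) := by positivity
  -- the main estimate
  have key : m' ≤ 2 ^ (K * k) → (2 : ℝ) ^ Z ≤ N := by
    intro hm'
    have h1 := core4 hk3 hK3 he2 hd hm' hf1 ht1 (fun c => hbr (24 * k) c)
    have h2 : Z + (K : ℝ) * k + k + 6 ≤ 2 ^ d := by
      have h4 := poly_le hL100
      have h5 : (2 : ℝ) ^ ((1 - η) * L) * 2 ^ (7 : ℝ) ≤ 2 ^ (d : ℝ) := by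
        rw [rp_mul]
        exact rp_le hdη
      have h6 : (2 : ℝ) ^ (3 * L / 4 - 7) * 2 ^ (7 : ℝ) ≤ 2 ^ (d : ℝ) := by
        rw [rp_mul]
        exact rp_le (by linarith)
      have h7 : (2 : ℝ) ^ (7 : ℝ) = 128 := by
        have : (7 : ℝ) = ((7 : ℕ) : ℝ) := by norm_num
        rw [this, Real.rpow_natCast]
        norm_num
      rw [h7] at h5 h6
      rw [Real.rpow_natCast] at h5 h6
      rw [hZ]
      linarith
    have h3 : (2 : ℝ) * ((m' * (24 * k) : ℕ) + 1) ≤ 2 ^ ((K : ℝ) * k + k + 6) := by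
      have h4 : 2 * (m' * (24 * k) + 1) ≤ 2 ^ (K * k + k + 6) := by
        calc 2 * (m' * (24 * k) + 1) ≤ 2 * (2 ^ (K * k) * (24 * k) + 2 ^ (K * k)) := by
              gcongr
              exact Nat.one_le_two_pow
          _ = 2 ^ (K * k) * (48 * k + 2) := by ring
          _ ≤ 2 ^ (K * k) * (2 ^ k * 64) := by
              gcongr
              have h5 : k + 1 ≤ 2 ^ k := Nat.lt_two_pow_self
              omega
          _ = 2 ^ (K * k + k + 6) := by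
              rw [pow_add, pow_add]
              ring
      have h5 : ((2 * (m' * (24 * k) + 1) : ℕ) : ℝ) ≤ ((2 ^ (K * k + k + 6) : ℕ) : ℝ) := by exact_mod_cast h4
      have h6 : (2 : ℝ) ^ ((K : ℝ) * k + k + 6) = ((2 ^ (K * k + k + 6) : ℕ) : ℝ) := by
        push_cast
        rw [← Real.rpow_natCast 2 (K * k + k + 6)]
        congr 1
        push_cast
        ring
      rw [h6]
      refine le_trans (le_of_eq ?_) h5
      push_cast
      ring
    have h4 : (2 : ℝ) ^ ((2 : ℝ) ^ d) ≤ Real.exp ((2 : ℝ) ^ d) := by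
      rw [Real.rpow_def_of_pos (by norm_num), Real.exp_le_exp]
      have h5 := Real.log_two_lt_d9
      have h6 : (0 : ℝ) < 2 ^ d := by positivity
      nlinarith
    have hN0 : (0 : ℝ) ≤ N := Nat.cast_nonneg N
    have h5 : (2 : ℝ) ^ ((K : ℝ) * k + k + 6) * 2 ^ Z ≤ (2 : ℝ) ^ ((K : ℝ) * k + k + 6) * N := by
      calc (2 : ℝ) ^ ((K : ℝ) * k + k + 6) * 2 ^ Z = 2 ^ (((K : ℝ) * k + k + 6) + Z) := rp_mul _ _
        _ ≤ 2 ^ ((2 : ℝ) ^ d) := rp_le (by linarith)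
        _ ≤ Real.exp ((2 : ℝ) ^ d) := h4
        _ ≤ 2 * ((m' * (24 * k) : ℕ) + 1) * N := h1
        _ ≤ 2 ^ ((K : ℝ) * k + k + 6) * N := mul_le_mul_of_nonneg_right h3 hN0
    exact le_of_mul_le_mul_left h5 (by positivity)
  -- the size of `m'`
  have hm'' : ∀ x : ℝ, x ≤ 2 ^ (δ * L ^ 2 / e + 1) → x ≤ 2 ^ (K * k) := by
    intro x hx
    refine hx.trans ?_
    rw [← Real.rpow_natCast 2 (K * k)]
    refine rp_le ?_
    push_cast
    exact hKk
  constructor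
  · intro hm
    have h0 : (m : ℝ) ≤ 2 ^ (δ * L ^ 2 / e) := by
      have h1 : ((2 : ℝ) ^ (δ * L ^ 2 / e)) ^ e = 2 ^ (δ * L ^ 2) := by
        rw [← Real.rpow_natCast, ← Real.rpow_mul (by norm_num)]
        congr 1
        field_simp
      rw [← h1] at hm
      exact le_of_pow_le_pow_left₀ (by omega) (by positivity) hm
    have h1 : m' ≤ 2 ^ (K * k) := by
      have h2 : (m' : ℝ) ≤ 2 ^ (K * k) := by
        refine hm'' _ ?_
        have h3 : (m' : ℝ) ≤ m := by exact_mod_cast hm'm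
        exact (h3.trans h0).trans (rp_le (by linarith))
      exact_mod_cast h2
    refine le_trans (rp_le ?_) (key h1)
    rw [hZ]
    linarith
  · by_contra hcon
    rw [not_le] at hcon
    have h1 : m' ≤ 2 ^ (K * k) := by
      have h2 : (m' : ℝ) ≤ 2 ^ (K * k) := by
        refine hm'' _ ?_
        have h3 : (m' : ℝ) ≤ 2 * N := by exact_mod_cast hm'N
        rw [add_comm, ← rp_mul, Real.rpow_one]
        linarith
      exact_mod_cast h2
    have h2 := key h1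
    have h3 : (2 : ℝ) ^ (δ * L ^ 2 / e) ≤ 2 ^ Z := by
      refine rp_le ?_
      rw [hZ]
      have h4 : δ * L ^ 2 / e ≤ L ^ 2 := by
        rw [div_le_iff₀ (by linarith)]
        nlinarith
      linarith
    linarith

end H81B4
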